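import Mathlib

/-!
# Direct factors of cyclic groups which contain most of an interval
-/

set_option autoImplicit false
set_option linter.unusedSectionVars false

namespace Pool.Agent.H241.DF

open Finset

/-- `ZMod ω = A ⊕ B`: every element is in exactly one way `a + b` with `a ∈ A`, `b ∈ B`. -/
def IsFactorization {ω : ℕ} (A B : Finset (ZMod ω)) : Prop :=
  ∀ g : ZMod ω, ∃! p : ZMod ω × ZMod ω, p.1 ∈ A ∧ p.2 ∈ B ∧ p.1 + p.2 = g

/-- The residues `x, x + 1, …, x + n - 1`. -/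
def win {ω : ℕ} (x : ZMod ω) (n : ℕ) : Finset (ZMod ω) :=
  (Finset.range n).image fun i : ℕ => x + (i : ZMod ω)

/-- `S` is a complete set of residues modulo `n`: it has `n` elements and they are pairwise
incongruent modulo `n`. -/
def CompleteResidues {ω : ℕ} (n : ℕ) (S : Finset (ZMod ω)) : Prop :=
  S.card = n ∧ ∀ a ∈ S, ∀ b ∈ S, (ZMod.cast a : ZMod n) = ZMod.cast b → a = b

/-- `B` is the coset `b, b + n, b + 2 n, …` of the subgroup generated by `n`. -/
def IsCoset {ω : ℕ} (n : ℕ) (B : Finset (ZMod ω)) : Prop :=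
  ∃ b : ZMod ω, B = (Finset.range (ω / n)).image fun j : ℕ => b + (j : ZMod ω) * (n : ZMod ω)

section
variable {ω : ℕ} [NeZero ω]

/-- the indicator function -/
def ind (B : Finset (ZMod ω)) (z : ZMod ω) : ℤ := if z ∈ B then 1 else 0

theorem ind_mem {B : Finset (ZMod ω)} {z : ZMod ω} (h : z ∈ B) : ind B z = 1 := if_pos h

theorem ind_not {B : Finset (ZMod ω)} {z : ZMod ω} (h : z ∉ B) : ind B z = 0 := if_neg h

theorem sum_ind_univ (B : Finset (ZMod ω)) : ∑ z, ind B z = B.card := by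
  simp [ind]

theorem tile {A B : Finset (ZMod ω)} (h : IsFactorization A B) (z : ZMod ω) :
    ∑ a ∈ A, ind B (z - a) = 1 := by
  obtain ⟨⟨a₀, b₀⟩, ⟨h1, h2, h3⟩, hu⟩ := h z
  simp only at h1 h2 h3 hu
  rw [Finset.sum_eq_single_of_mem a₀ h1]
  · apply ind_mem
    rw [← h3, add_sub_cancel_left]
    exact h2
  · intro a ha hne
    apply ind_not
    intro hb
    have := hu (a, z - a) ⟨ha, hb, by simp⟩
    exact hne (congrArg Prod.fst this)

theorem card_mul {A B : Finset (ZMod ω)} (h : IsFactorization A B) : A.card * B.card = ω := by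
  have h1 : ∑ z : ZMod ω, ∑ a ∈ A, ind B (z - a) = ω := by
    simp only [tile h]
    simp [ZMod.card]
  rw [Finset.sum_comm] at h1
  have h2 : ∀ a : ZMod ω, ∑ z : ZMod ω, ind B (z - a) = B.card := by
    intro a
    rw [← sum_ind_univ B]
    exact Equiv.sum_comp (Equiv.subRight a) (ind B)
  simp only [h2, Finset.sum_const, nsmul_eq_mul] at h1
  exact_mod_cast h1

theorem uniq {A B : Finset (ZMod ω)} (h : IsFactorization A B) {a a' b b' : ZMod ω} (ha : a ∈ A)
    (ha' : a' ∈ A) (hb : b ∈ B) (hb' : b' ∈ B) (he : a + b = a' + b') : a = a' ∧ b = b' := by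
  obtain ⟨p, -, hu⟩ := h (a + b)
  have h1 := hu (a, b) ⟨ha, hb, rfl⟩
  have h2 := hu (a', b') ⟨ha', hb', he.symm⟩
  have h3 := h1.trans h2.symm
  exact ⟨congrArg Prod.fst h3, congrArg Prod.snd h3⟩

/-- differences of `A` are not differences of `B` -/
theorem no_diff {A B : Finset (ZMod ω)} (h : IsFactorization A B) {a a' b : ZMod ω} {d : ℕ}
    (ha : a ∈ A) (ha' : a' ∈ A) (hd : a = a' + (d : ZMod ω)) (hb : b ∈ B) (h0 : 0 < d)
    (hdω : d < ω) : b + (d : ZMod ω) ∉ B := by
  intro hb'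
  have h1 := uniq h ha ha' hb hb' (by rw [hd]; ring)
  have h2 : (d : ZMod ω) = 0 := by
    have := h1.2
    exact left_eq_add.1 this
  rw [ZMod.natCast_eq_zero_iff] at h2
  exact absurd (Nat.le_of_dvd h0 h2) (by omega)

theorem exists_F {A B : Finset (ZMod ω)} (h : IsFactorization A B) :
    ∃ F : ZMod ω → ℤ, ∀ z, F (z + 1) = F z + 1 - A.card * ind B z := by
  have hsum : ∀ g : ZMod ω → ℤ, ∑ t ∈ range ω, g (t : ZMod ω) = ∑ z, g z := by
    intro g
    refine Finset.sum_nbij' (fun t => (t : ZMod ω)) (fun z => z.val) ?_ ?_ ?_ ?_ ?_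
    · intro t _; exact mem_univ _
    · intro z _; exact mem_range.2 (ZMod.val_lt z)
    · intro t ht; exact ZMod.val_cast_of_lt (mem_range.1 ht)
    · intro z _; exact ZMod.natCast_zmod_val z
    · intro t _; rfl
  refine ⟨fun z => ∑ t ∈ range z.val, (1 - (A.card : ℤ) * ind B (t : ZMod ω)), fun z => ?_⟩
  have hz : ((z.val : ℕ) : ZMod ω) = z := ZMod.natCast_zmod_val z
  have hlt := ZMod.val_lt z
  have hstep : ∑ t ∈ range (z.val + 1), (1 - (A.card : ℤ) * ind B (t : ZMod ω)) =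
      (∑ t ∈ range z.val, (1 - (A.card : ℤ) * ind B (t : ZMod ω))) + 1 - A.card * ind B z := by
    rw [sum_range_succ, hz]; ring
  simp only
  rw [← hstep]
  rcases Nat.lt_or_ge (z.val + 1) ω with h1 | h1
  · have : (z + 1).val = z.val + 1 := by
      have h2 : z + 1 = ((z.val + 1 : ℕ) : ZMod ω) := by push_cast; rw [hz]
      rw [h2, ZMod.val_cast_of_lt h1]
    rw [this]
  · have h2 : z.val + 1 = ω := by omega
    have h3 : z + 1 = 0 := by
      have : z + 1 = ((z.val + 1 : ℕ) : ZMod ω) := by push_cast; rw [hz]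
      rw [this, h2, ZMod.natCast_self]
    rw [h3, ZMod.val_zero, range_zero, sum_empty, h2,
      hsum (fun z => 1 - (A.card : ℤ) * ind B z), sum_sub_distrib, ← mul_sum, sum_ind_univ]
    simp only [sum_const, card_univ, ZMod.card, nsmul_eq_mul, mul_one]
    have := card_mul h
    have h4 : (A.card : ℤ) * B.card = ω := by exact_mod_cast this
    rw [h4, sub_self]

end

section
variable {ω : ℕ} [NeZero ω] {A B : Finset (ZMod ω)} {F : ZMod ω → ℤ}

theorem run (hF : ∀ z, F (z + 1) = F z + 1 - A.card * ind B z) (z : ZMod ω) (s : ℕ)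
    (h : ∀ t < s, z + (t : ZMod ω) ∉ B) : F (z + (s : ZMod ω)) = F z + s := by
  induction s with
  | zero => simp
  | succ s ih =>
    have h1 := ih fun t ht => h t (by omega)
    have h2 : z + ((s + 1 : ℕ) : ZMod ω) = z + (s : ZMod ω) + 1 := by push_cast; ring
    rw [h2, hF, h1, ind_not (h s (by omega))]
    push_cast; ring

theorem run_after (hF : ∀ z, F (z + 1) = F z + 1 - A.card * ind B z) {b : ZMod ω} (hb : b ∈ B)
    (v : ℕ) (hv : 1 ≤ v) (h : ∀ t, 1 ≤ t → t < v → b + (t : ZMod ω) ∉ B) :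
    F (b + (v : ZMod ω)) = F b + v - A.card := by
  obtain ⟨w, rfl⟩ : ∃ w, v = w + 1 := ⟨v - 1, by omega⟩
  have h1 := run hF (b + 1) w fun t ht => by
    have := h (t + 1) (by omega) (by omega)
    push_cast at this
    rwa [add_assoc, add_comm 1 (t : ZMod ω)]
  rw [hF, ind_mem hb] at h1
  have h2 : b + ((w + 1 : ℕ) : ZMod ω) = b + 1 + (w : ZMod ω) := by push_cast; ring
  rw [h2, h1]; push_cast; ring

theorem next (hB : B.Nonempty) (z : ZMod ω) :
    ∃ s : ℕ, z + (s : ZMod ω) ∈ B ∧ ∀ t < s, z + (t : ZMod ω) ∉ B := by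
  classical
  obtain ⟨b, hb⟩ := hB
  have hex : ∃ s : ℕ, z + (s : ZMod ω) ∈ B := by
    refine ⟨(b - z).val, ?_⟩
    rw [ZMod.natCast_zmod_val, add_sub_cancel]
    exact hb
  exact ⟨Nat.find hex, Nat.find_spec hex, fun t ht => Nat.find_min hex ht⟩

theorem next' (hB : B.Nonempty) (z : ZMod ω) :
    ∃ s : ℕ, 1 ≤ s ∧ z + (s : ZMod ω) ∈ B ∧ ∀ t, 1 ≤ t → t < s → z + (t : ZMod ω) ∉ B := by
  obtain ⟨s, hs, hs'⟩ := next hB (z + 1)
  refine ⟨s + 1, by omega, ?_, fun t ht1 ht2 => ?_⟩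
  · push_cast
    rwa [add_comm (s : ZMod ω) 1, ← add_assoc]
  · have h1 := hs' (t - 1) (by omega)
    have h2 : z + 1 + ((t - 1 : ℕ) : ZMod ω) = z + (t : ZMod ω) := by
      rw [Nat.cast_sub ht1]; push_cast; ring
    rwa [h2] at h1

theorem prev (hB : B.Nonempty) (z : ZMod ω) :
    ∃ b ∈ B, ∃ s : ℕ, 1 ≤ s ∧ z = b + (s : ZMod ω) ∧
      ∀ t, 1 ≤ t → t < s → b + (t : ZMod ω) ∉ B := by
  classical
  obtain ⟨b, hb⟩ := hB
  have hex : ∃ s : ℕ, 1 ≤ s ∧ z - (s : ZMod ω) ∈ B := by
    refine ⟨(z - b).val + ω, by have := NeZero.pos ω; omega, ?_⟩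
    push_cast
    rw [ZMod.natCast_zmod_val, ZMod.natCast_self, add_zero, sub_sub_cancel]
    exact hb
  obtain ⟨h1, h2⟩ := Nat.find_spec hex
  refine ⟨z - (Nat.find hex : ℕ), h2, Nat.find hex, h1, by ring, fun t ht1 ht2 hm => ?_⟩
  refine Nat.find_min hex (m := Nat.find hex - t) (by omega) ⟨by omega, ?_⟩
  have h3 : z - ((Nat.find hex - t : ℕ) : ZMod ω) = z - (Nat.find hex : ℕ) + (t : ZMod ω) := by
    rw [Nat.cast_sub ht2.le]; ring
  rw [h3]
  exact hm

theorem F_le (hF : ∀ z, F (z + 1) = F z + 1 - A.card * ind B z) {q : ZMod ω} (hq : q ∈ B)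
    (hqm : ∀ b ∈ B, F b ≤ F q) (z : ZMod ω) : F z ≤ F q := by
  obtain ⟨s, hs, hs'⟩ := next ⟨q, hq⟩ z
  have h1 := run hF z s hs'
  have h2 := hqm _ hs
  have h3 : (0 : ℤ) ≤ s := by positivity
  linarith

theorem F_ge (hF : ∀ z, F (z + 1) = F z + 1 - A.card * ind B z) {p : ZMod ω} (hp : p ∈ B)
    (hpm : ∀ b ∈ B, F p ≤ F b) (z : ZMod ω) : F p - A.card + 1 ≤ F z := by
  obtain ⟨b, hb, s, hs1, rfl, hs'⟩ := prev ⟨p, hp⟩ z
  have h1 := run_after hF hb s hs1 hs'
  have h2 := hpm _ hb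
  have h3 : (1 : ℤ) ≤ s := by exact_mod_cast hs1
  linarith

/-- the sum of `F (z - a)` over `a ∈ A` does not depend on `z` -/
theorem sum_const' (h : IsFactorization A B) (hF : ∀ z, F (z + 1) = F z + 1 - A.card * ind B z)
    (z z' : ZMod ω) : ∑ a ∈ A, F (z - a) = ∑ a ∈ A, F (z' - a) := by
  have hstep : ∀ z, ∑ a ∈ A, F (z + 1 - a) = ∑ a ∈ A, F (z - a) := by
    intro z
    have h1 : ∀ a, F (z + 1 - a) = F (z - a) + 1 - A.card * ind B (z - a) := by
      intro a
      rw [← hF, sub_add_eq_add_sub]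
    simp only [h1, sum_sub_distrib, sum_add_distrib, ← mul_sum, tile h]
    simp
  have hn : ∀ (s : ℕ) (z : ZMod ω), ∑ a ∈ A, F (z + (s : ZMod ω) - a) = ∑ a ∈ A, F (z - a) := by
    intro s
    induction s with
    | zero => intro z; simp
    | succ s ih =>
      intro z
      have h2 : z + ((s + 1 : ℕ) : ZMod ω) = z + (s : ZMod ω) + 1 := by push_cast; ring
      rw [h2, hstep, ih]
  have h3 := hn (z - z').val z'
  rw [ZMod.natCast_zmod_val, add_sub_cancel] at h3
  exact h3

/-- the final step: from a progression in `B` -/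
theorem final (h : IsFactorization A B) {b : ZMod ω}
    (hb : ∀ j : ℕ, b + (j : ZMod ω) * (A.card : ZMod ω) ∈ B) :
    A.card ∣ ω ∧ CompleteResidues A.card A ∧ IsCoset A.card B := by
  have hc := card_mul h
  have hdvd : A.card ∣ ω := ⟨_, hc.symm⟩
  have hω : 0 < ω := NeZero.pos ω
  have hn : 0 < A.card := Nat.pos_of_dvd_of_pos hdvd hω
  have hb0 : b ∈ B := by simpa using hb 0
  refine ⟨hdvd, ⟨rfl, fun a ha a' ha' hcast => ?_⟩, ⟨b, ?_⟩⟩
  · -- congruent elements
    have hNZ : NeZero A.card := ⟨hn.ne'⟩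
    have key : ∀ a ∈ A, ∀ a' ∈ A, (ZMod.cast a : ZMod A.card) = ZMod.cast a' → a.val ≤ a'.val →
        a = a' := by
      intro a ha a' ha' hcast hle
      rw [← ZMod.natCast_val, ← ZMod.natCast_val, ZMod.natCast_eq_natCast_iff] at hcast
      obtain ⟨j, hj⟩ := (Nat.modEq_iff_dvd' hle).1 hcast
      have h1 : a' = a + (j : ZMod ω) * (A.card : ZMod ω) := by
        have h2 : a'.val = a.val + j * A.card := by
          rw [mul_comm j]; omega
        have h3 : ((a'.val : ℕ) : ZMod ω) = ((a.val + j * A.card : ℕ) : ZMod ω) := by rw [h2]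
        push_cast at h3
        rwa [ZMod.natCast_zmod_val, ZMod.natCast_zmod_val] at h3
      exact (uniq h ha ha' (hb j) hb0 (by rw [h1]; ring)).1
    rcases le_total a.val a'.val with h1 | h1
    · exact key a ha a' ha' hcast h1
    · exact (key a' ha' a ha hcast.symm h1).symm
  · symm
    apply Finset.eq_of_subset_of_card_le
    · intro y hy
      obtain ⟨j, -, rfl⟩ := Finset.mem_image.1 hy
      exact hb j
    · rw [Finset.card_image_of_injOn, card_range]
      · have : ω / A.card = B.card := Nat.div_eq_of_eq_mul_right hn hc.symm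
        rw [this]
      · intro j hj j' hj' he
        simp only at he
        have h1 : ((j * A.card : ℕ) : ZMod ω) = ((j' * A.card : ℕ) : ZMod ω) := by
          push_cast
          exact add_left_cancel he
        rw [ZMod.natCast_eq_natCast_iff] at h1
        have hlt : ∀ i ∈ (range (ω / A.card) : Finset ℕ), i * A.card < ω := by
          intro i hi
          rw [mem_range] at hi
          calc i * A.card < (ω / A.card) * A.card := Nat.mul_lt_mul_of_pos_right hi hn
            _ = ω := Nat.div_mul_cancel hdvd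
        have h2 := Nat.ModEq.eq_of_lt_of_lt h1 (hlt j hj) (hlt j' hj')
        exact Nat.eq_of_mul_eq_mul_right hn h2

end

end Pool.Agent.H241.DF
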