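import Pool.Agent.H241.DF.Core

/-!
# Direct factors of cyclic groups which contain most of an interval: the proofs
-/

set_option autoImplicit false
set_option linter.unusedSectionVars false

namespace Pool.Agent.H241.DF

open Finset

variable {ω : ℕ} [NeZero ω] {A B : Finset (ZMod ω)} {F : ZMod ω → ℤ}

/-- the indices of the elements of `A` in the window -/
def TT (A : Finset (ZMod ω)) (x : ZMod ω) : Finset ℕ :=
  (range A.card).filter fun t => x + (t : ZMod ω) ∈ A

/-- the other elements -/
def KK (A : Finset (ZMod ω)) (x : ZMod ω) : Finset (ZMod ω) :=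
  A \ (TT A x).image fun t : ℕ => x + (t : ZMod ω)

theorem card_le_omega (h : IsFactorization A B) : A.card ≤ ω :=
  Nat.le_of_dvd (NeZero.pos ω) ⟨_, (card_mul h).symm⟩

theorem inj_on (h : IsFactorization A B) (x : ZMod ω) :
    Set.InjOn (fun t : ℕ => x + (t : ZMod ω)) (range A.card : Finset ℕ) := by
  intro i hi j hj he
  have hc := card_le_omega h
  have h1 : (i : ZMod ω) = (j : ZMod ω) := add_left_cancel he
  rw [ZMod.natCast_eq_natCast_iff] at h1
  have hi' := mem_range.1 (Finset.mem_coe.1 hi)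
  have hj' := mem_range.1 (Finset.mem_coe.1 hj)
  exact Nat.ModEq.eq_of_lt_of_lt h1 (by omega) (by omega)

theorem TT_sub (A : Finset (ZMod ω)) (x : ZMod ω) : TT A x ⊆ range A.card := filter_subset _ _

theorem image_sub (A : Finset (ZMod ω)) (x : ZMod ω) :
    ((TT A x).image fun t : ℕ => x + (t : ZMod ω)) ⊆ A := by
  intro y hy
  obtain ⟨t, ht, rfl⟩ := mem_image.1 hy
  exact (mem_filter.1 ht).2

theorem card_image (h : IsFactorization A B) (x : ZMod ω) :
    ((TT A x).image fun t : ℕ => x + (t : ZMod ω)).card = (TT A x).card :=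
  card_image_of_injOn fun _ hi _ hj he =>
    inj_on h x (Finset.mem_coe.2 (TT_sub A x (Finset.mem_coe.1 hi)))
      (Finset.mem_coe.2 (TT_sub A x (Finset.mem_coe.1 hj))) he

theorem card_KK (h : IsFactorization A B) (x : ZMod ω) :
    (KK A x).card + (TT A x).card = A.card := by
  unfold KK
  rw [← card_image h x]
  exact card_sdiff_add_card_eq_card (image_sub A x)

theorem sum_split (h : IsFactorization A B) (x : ZMod ω) (g : ZMod ω → ℤ) :
    ∑ a ∈ A, g a = ∑ t ∈ TT A x, g (x + (t : ZMod ω)) + ∑ a ∈ KK A x, g a := by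
  have h1 : ∑ t ∈ TT A x, g (x + (t : ZMod ω)) =
      ∑ a ∈ (TT A x).image fun t : ℕ => x + (t : ZMod ω), g a := by
    rw [sum_image fun i hi j hj he =>
      inj_on h x (Finset.mem_coe.2 (TT_sub A x (Finset.mem_coe.1 hi)))
        (Finset.mem_coe.2 (TT_sub A x (Finset.mem_coe.1 hj))) he]
  rw [h1, add_comm]
  exact (sum_sdiff (image_sub A x)).symm

/-- if all gaps of `B` are at most `n` -/
theorem of_gaps (h : IsFactorization A B)
    (hgap : ∀ b ∈ B, ∃ d : ℕ, 1 ≤ d ∧ d ≤ A.card ∧ b + (d : ZMod ω) ∈ B) :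
    A.card ∣ ω ∧ CompleteResidues A.card A ∧ IsCoset A.card B := by
  obtain ⟨F, hF⟩ := exists_F h
  have hB : B.Nonempty := by
    obtain ⟨p, hp, -⟩ := h 0
    exact ⟨p.2, hp.2.1⟩
  obtain ⟨p, hp, hpm⟩ := exists_min_image B F hB
  have key : ∀ j : ℕ, p + (j : ZMod ω) * (A.card : ZMod ω) ∈ B ∧
      F (p + (j : ZMod ω) * (A.card : ZMod ω)) = F p := by
    intro j
    induction j with
    | zero => simpa using hp
    | succ j ih =>
      obtain ⟨h1, h2⟩ := ih
      obtain ⟨s, hs1, hs2, hs3⟩ := next' hB (p + (j : ZMod ω) * (A.card : ZMod ω))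
      obtain ⟨d, hd1, hd2, hd3⟩ := hgap _ h1
      have hsd : s ≤ d := by
        by_contra hlt
        exact hs3 d hd1 (by omega) hd3
      have h3 := run_after hF h1 s hs1 hs3
      have h4 := hpm _ hs2
      have h5 : s = A.card := by
        have : (A.card : ℤ) ≤ s := by linarith
        have : A.card ≤ s := by exact_mod_cast this
        omega
      have h6 : p + ((j + 1 : ℕ) : ZMod ω) * (A.card : ZMod ω) =
          p + (j : ZMod ω) * (A.card : ZMod ω) + (s : ZMod ω) := by
        rw [h5]; push_cast; ring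
      rw [h6]
      refine ⟨hs2, ?_⟩
      rw [h3, h2, h5]; ring
  exact final h fun j => (key j).1

/-- the case of a run of `s` consecutive elements such that `1, …, n - s` are differences -/
theorem half (h : IsFactorization A B) (x : ZMod ω) (s : ℕ) (hs : 1 ≤ s)
    (hrun : ∀ i < s, x + (i : ZMod ω) ∈ A)
    (hdiff : ∀ d : ℕ, 1 ≤ d → d + s ≤ A.card → ∃ a ∈ A, ∃ a' ∈ A, a = a' + (d : ZMod ω)) :
    A.card ∣ ω ∧ CompleteResidues A.card A ∧ IsCoset A.card B := by
  classical
  apply of_gaps h
  intro b hb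
  by_contra hcon
  push Not at hcon
  have hc := card_le_omega h
  have hno : ∀ b' ∈ B, ∀ d : ℕ, 1 ≤ d → d + s ≤ A.card → b' + (d : ZMod ω) ∉ B := by
    intro b' hb' d hd1 hd2
    obtain ⟨a, ha, a', ha', he⟩ := hdiff d hd1 hd2
    exact no_diff h ha ha' he hb' (by omega) (by omega)
  -- the covering elements
  have hcov : ∀ z : ZMod ω, ∃ a ∈ A, ∃ b ∈ B, a + b = z := by
    intro z
    obtain ⟨p, ⟨h1, h2, h3⟩, -⟩ := h z
    exact ⟨p.1, h1, p.2, h2, h3⟩
  choose ca hca cb hcb hcab using hcov
  have hJ : ((range (A.card + 1)) \ TT A x).card = A.card + 1 - (TT A x).card := by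
    rw [card_sdiff_of_subset ((TT_sub A x).trans (range_subset_range.2 (by omega))), card_range]
  have hlt : (KK A x).card < ((range (A.card + 1)) \ TT A x).card := by
    have := card_KK h x
    omega
  have hJs : ∀ j ∈ (range (A.card + 1)) \ TT A x, s ≤ j ∨ j = A.card := by
    intro j hj
    by_contra hcon2
    push Not at hcon2
    obtain ⟨h1, h2⟩ := hcon2
    rw [mem_sdiff, mem_range] at hj
    apply hj.2
    rw [TT, mem_filter, mem_range]
    exact ⟨by omega, hrun j h1⟩
  have hmaps : ∀ j ∈ (range (A.card + 1)) \ TT A x, ca (b + x + (j : ZMod ω)) ∈ KK A x := by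
    intro j hj
    rw [KK, mem_sdiff]
    refine ⟨hca _, fun hmem => ?_⟩
    obtain ⟨t, ht, hte⟩ := mem_image.1 hmem
    have htn := mem_range.1 (TT_sub A x ht)
    have hcb' := hcb (b + x + (j : ZMod ω))
    have heq := hcab (b + x + (j : ZMod ω))
    rw [← hte] at heq
    have hj' := mem_range.1 (mem_sdiff.1 hj).1
    rcases lt_trichotomy j t with h1 | h1 | h1
    · -- `b = b' + (t - j)`
      have hsj : s ≤ j := by
        rcases hJs j hj with h2 | h2
        · exact h2
        · omega
      have h3 : cb (b + x + (j : ZMod ω)) + ((t - j : ℕ) : ZMod ω) = b := by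
        rw [Nat.cast_sub h1.le]
        linear_combination heq
      exact hno _ hcb' (t - j) (by omega) (by omega) (by rw [h3]; exact hb)
    · exact (mem_sdiff.1 hj).2 (h1 ▸ ht)
    · have h3 : b + ((j - t : ℕ) : ZMod ω) = cb (b + x + (j : ZMod ω)) := by
        rw [Nat.cast_sub h1.le]
        linear_combination -heq
      exact hcon (j - t) (by omega) (by omega) (by rw [h3]; exact hcb')
  have hfin : ∀ j₁ ∈ (range (A.card + 1)) \ TT A x, ∀ j₂ ∈ (range (A.card + 1)) \ TT A x,
      j₁ < j₂ → ca (b + x + (j₁ : ZMod ω)) = ca (b + x + (j₂ : ZMod ω)) → False := by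
    intro j₁ hj₁ j₂ hj₂ h1 h2
    have hj₂' := mem_range.1 (mem_sdiff.1 hj₂).1
    have hsj : s ≤ j₁ := by
      rcases hJs j₁ hj₁ with h3 | h3
      · exact h3
      · omega
    have e1 := hcab (b + x + (j₁ : ZMod ω))
    have e2 := hcab (b + x + (j₂ : ZMod ω))
    rw [← h2] at e2
    have h3 : cb (b + x + (j₁ : ZMod ω)) + ((j₂ - j₁ : ℕ) : ZMod ω) =
        cb (b + x + (j₂ : ZMod ω)) := by
      rw [Nat.cast_sub h1.le]
      linear_combination e1 - e2
    exact hno _ (hcb _) (j₂ - j₁) (by omega) (by omega) (by rw [h3]; exact hcb _)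
  obtain ⟨j₁, hj₁, j₂, hj₂, hne, he⟩ := exists_ne_map_eq_of_card_lt_of_maps_to hlt
    (f := fun j : ℕ => ca (b + x + (j : ZMod ω))) hmaps
  rcases lt_or_gt_of_ne hne with h1 | h1
  · exact hfin j₁ hj₁ j₂ hj₂ h1 he
  · exact hfin j₂ hj₂ j₁ hj₁ h1 he.symm

/-- differences of a dense subset of an interval -/
theorem diffs {n : ℕ} (T : Finset ℕ) (hT : T ⊆ range n) (h4 : 4 * (n - T.card) ≤ n) (d : ℕ)
    (hd : d + (n - T.card) < n) : ∃ t ∈ T, t + d ∈ T := by
  classical
  by_contra hcon
  push Not at hcon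
  set C := range n \ T with hC
  have hCc : C.card = n - T.card := by rw [hC, card_sdiff_of_subset hT, card_range]
  -- all pairs are killed
  have h1 : range (n - d) ⊆ (C.filter fun c => c < n - d) ∪
      ((C.filter fun c => d ≤ c).image fun c => c - d) := by
    intro a ha
    rw [mem_range] at ha
    rw [mem_union, mem_filter, mem_image]
    by_cases haT : a ∈ T
    · right
      have h2 := hcon a haT
      refine ⟨a + d, ?_, by omega⟩
      rw [mem_filter, hC, mem_sdiff, mem_range]
      exact ⟨⟨by omega, h2⟩, by omega⟩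
    · left
      refine ⟨?_, ha⟩
      rw [hC, mem_sdiff, mem_range]
      exact ⟨by omega, haT⟩
  have h2 := card_le_card h1
  rw [card_range] at h2
  have h3 := h2.trans (card_union_le _ _)
  have h5 : ((C.filter fun c => d ≤ c).image fun c => c - d).card ≤
    (C.filter fun c => d ≤ c).card := card_image_le
  by_cases hd2 : n ≤ 2 * d
  · have h6 : (C.filter fun c => c < n - d).card + (C.filter fun c => d ≤ c).card ≤ C.card := by
      rw [← card_union_of_disjoint]
      · exact card_le_card (union_subset (filter_subset _ _) (filter_subset _ _))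
      · rw [disjoint_left]
        intro c hc1 hc2
        have := (mem_filter.1 hc1).2
        have := (mem_filter.1 hc2).2
        omega
    omega
  · have h6 : (C.filter fun c => c < n - d).card ≤ C.card := card_le_card (filter_subset _ _)
    have h7 : (C.filter fun c => d ≤ c).card ≤ C.card := card_le_card (filter_subset _ _)
    omega

section
variable {n : ℕ}

/-- the values of `F` near an element of `B` -/
theorem loc (hF : ∀ z, F (z + 1) = F z + 1 - A.card * ind B z) {k : ℕ}
    (hsp : ∀ b ∈ B, ∀ d : ℕ, 1 ≤ d → d + k < A.card → b + (d : ZMod ω) ∉ B) {b : ZMod ω}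
    (hb : b ∈ B) {u t : ℕ} (hu : k ≤ u) (hu' : u + k ≤ A.card) (ht : t < A.card) :
    F (b + (u : ZMod ω) - (t : ZMod ω)) = F b + (u - t - if t < u then (A.card : ℤ) else 0) := by
  by_cases htu : t < u
  · rw [if_pos htu]
    have h1 : b + (u : ZMod ω) - (t : ZMod ω) = b + ((u - t : ℕ) : ZMod ω) := by
      rw [Nat.cast_sub htu.le]; ring
    rw [h1, run_after hF hb (u - t) (by omega) fun t' h1 h2 => hsp b hb t' h1 (by omega),
      Nat.cast_sub htu.le]
    ring
  · rw [if_neg htu]
    have hut : u ≤ t := by omega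
    have h1 : b + (u : ZMod ω) - (t : ZMod ω) + ((t - u : ℕ) : ZMod ω) = b := by
      rw [Nat.cast_sub hut]; ring
    have h2 := run hF (b + (u : ZMod ω) - (t : ZMod ω)) (t - u) fun t' ht' hm => by
      refine hsp _ hm (t - u - t') (by omega) (by omega) ?_
      have h3 : b + (u : ZMod ω) - (t : ZMod ω) + (t' : ZMod ω) + ((t - u - t' : ℕ) : ZMod ω) =
          b := by
        rw [Nat.cast_sub (by omega), Nat.cast_sub hut]; ring
      rw [h3]; exact hb
    rw [h1, Nat.cast_sub hut] at h2
    linarith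

/-- the main theorem: `A` contains at least `4 n / 5` elements of an interval of length `n` -/
theorem main (h : IsFactorization A B) (x : ZMod ω) (hx : 4 * A.card ≤ 5 * (TT A x).card) :
    A.card ∣ ω ∧ CompleteResidues A.card A ∧ IsCoset A.card B := by
  classical
  obtain ⟨F, hF⟩ := exists_F h
  have hB : B.Nonempty := by
    obtain ⟨p, hp, -⟩ := h 0
    exact ⟨p.2, hp.2.1⟩
  have hcω := card_le_omega h
  have hn0 : 0 < A.card := by
    obtain ⟨p, hp, -⟩ := h 0
    exact card_pos.2 ⟨p.1, hp.1⟩
  set k : ℕ := (KK A x).card with hk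
  have hkT : k + (TT A x).card = A.card := card_KK h x
  have hkn : 5 * k ≤ A.card := by omega
  have hTn : A.card - (TT A x).card = k := by omega
  -- spacing
  have hsp : ∀ b ∈ B, ∀ d : ℕ, 1 ≤ d → d + k < A.card → b + (d : ZMod ω) ∉ B := by
    intro b hb d hd1 hd2
    obtain ⟨t, ht, ht'⟩ := diffs (TT A x) (TT_sub A x) (by omega) d (by omega)
    refine no_diff h (mem_filter.1 ht').2 (mem_filter.1 ht).2 ?_ hb hd1 (by omega)
    push_cast; ring
  obtain ⟨p, hp, hpm⟩ := exists_min_image B F hB
  obtain ⟨q, hq, hqm⟩ := exists_max_image B F hB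
  have hup := F_le hF hq hqm
  have hlo := F_ge hF hp hpm
  set n : ℤ := (A.card : ℤ) with hn
  have hnpos : 0 < n := by rw [hn]; exact_mod_cast hn0
  set E : ℤ := F q - F p with hE
  have hE0 : 0 ≤ E := by rw [hE]; exact sub_nonneg.2 (hpm q hq)
  -- the function `h`
  have hH : ∀ y : ZMod ω, ∃ e : ℤ, F (p + y) - F (q + y) = -E + n * e := by
    have hH' : ∀ s : ℕ, ∃ e : ℤ, F (p + (s : ZMod ω)) - F (q + (s : ZMod ω)) = -E + n * e := by
      intro s
      induction s with
      | zero => exact ⟨0, by rw [Nat.cast_zero, add_zero, add_zero, hE]; ring⟩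
      | succ s ih =>
        obtain ⟨e, he⟩ := ih
        refine ⟨e + ind B (q + (s : ZMod ω)) - ind B (p + (s : ZMod ω)), ?_⟩
        have e1 : p + ((s + 1 : ℕ) : ZMod ω) = p + (s : ZMod ω) + 1 := by push_cast; ring
        have e2 : q + ((s + 1 : ℕ) : ZMod ω) = q + (s : ZMod ω) + 1 := by push_cast; ring
        rw [e1, e2, hF, hF]
        linear_combination he
    intro y
    have := hH' y.val
    rwa [ZMod.natCast_zmod_val] at this
  choose e he using hH
  have he0 : ∀ y, 0 ≤ e y := by
    intro y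
    by_contra hneg
    have h1 : e y ≤ -1 := by omega
    have h2 := he y
    have h3 := hlo (p + y)
    have h4 := hup (q + y)
    nlinarith
  have heup : ∀ y, n * e y ≤ 2 * E + n - 1 := by
    intro y
    have h2 := he y
    have h3 := hlo (q + y)
    have h4 := hup (p + y)
    linarith
  -- the sums
  have hsum : ∀ u : ℕ, k ≤ u → u + k ≤ A.card →
      ∑ a ∈ KK A x, e (x + (u : ZMod ω) - a) = E := by
    intro u hu hu'
    have h1 := sum_const' h hF (p + x + (u : ZMod ω)) (q + x + (u : ZMod ω))
    rw [sum_split h x, sum_split h x (fun a => F (q + x + (u : ZMod ω) - a))] at h1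
    have h2 : ∀ b ∈ B, ∑ t ∈ TT A x, F (b + x + (u : ZMod ω) - (x + (t : ZMod ω))) =
        ((TT A x).card : ℤ) * F b +
          ∑ t ∈ TT A x, ((u : ℤ) - t - if t < u then (A.card : ℤ) else 0) := by
      intro b hb
      rw [← nsmul_eq_mul, ← sum_const, ← sum_add_distrib]
      refine sum_congr rfl fun t ht => ?_
      rw [← loc hF hsp hb hu hu' (mem_range.1 (TT_sub A x ht))]
      congr 1; ring
    rw [h2 p hp, h2 q hq] at h1
    have h3 : ∑ a ∈ KK A x, F (p + x + (u : ZMod ω) - a) -
        ∑ a ∈ KK A x, F (q + x + (u : ZMod ω) - a) =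
        (k : ℤ) * (-E) + n * ∑ a ∈ KK A x, e (x + (u : ZMod ω) - a) := by
      rw [← sum_sub_distrib, hk, ← nsmul_eq_mul, ← sum_const, mul_sum, ← sum_add_distrib]
      refine sum_congr rfl fun a _ => ?_
      rw [← he]
      congr 2 <;> ring
    have h4 : ((TT A x).card : ℤ) = n - k := by rw [hn, ← hkT]; push_cast; ring
    rw [h4] at h1
    have h5 : n * ∑ a ∈ KK A x, e (x + (u : ZMod ω) - a) = n * E := by
      rw [hE] at h3 ⊢
      linear_combination -h3 + h1
    exact mul_left_cancel₀ hnpos.ne' h5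
  -- the a priori bound
  have hkz : 5 * (k : ℤ) ≤ n := by rw [hn]; exact_mod_cast hkn
  have hk0 : (0 : ℤ) ≤ k := by positivity
  have hEn : 3 * E ≤ n - 1 := by
    have h1 := hsum k le_rfl (by omega)
    have h2 : n * E ≤ k * (2 * E + n - 1) := by
      rw [← h1, mul_sum, hk, ← nsmul_eq_mul, ← sum_const]
      refine sum_le_sum fun a _ => ?_
      rw [h1]; exact heup _
    have h3 : n * (5 * E) ≤ n * (2 * E + n - 1) := by nlinarith
    have h4 := le_of_mul_le_mul_left h3 hnpos
    linarith
  have he1 : ∀ y, e y ≤ 1 := by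
    intro y
    by_contra hgt
    have h1 : 2 ≤ e y := by omega
    have h2 := heup y
    nlinarith
  have hEk : E ≤ k := by
    rw [← hsum k le_rfl (by omega)]
    calc ∑ a ∈ KK A x, e (x + (k : ZMod ω) - a) ≤ ∑ a ∈ KK A x, (1 : ℤ) :=
          sum_le_sum fun a _ => he1 _
      _ = k := by rw [sum_const, nsmul_eq_mul, mul_one]
  -- `E = 0`
  have hE00 : E = 0 := by
    by_contra hne
    have hE1 : 1 ≤ E := by omega
    have hrow : ∀ a ∈ KK A x, ∑ u ∈ Icc k (3 * k), e (x + (u : ZMod ω) - a) ≤ 2 * E := by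
      intro a _
      set V := (Icc k (3 * k)).filter fun u : ℕ => e (x + (u : ZMod ω) - a) ≠ 0 with hV
      have hVs : ∑ u ∈ Icc k (3 * k), e (x + (u : ZMod ω) - a) ≤ V.card := by
        rw [← sum_filter_ne_zero]
        calc ∑ u ∈ V, e (x + (u : ZMod ω) - a) ≤ ∑ u ∈ V, (1 : ℤ) := sum_le_sum fun u _ => he1 _
          _ = V.card := by rw [sum_const, nsmul_eq_mul, mul_one]
      by_cases hVn : V.Nonempty
      · -- positions of the next elements of `B`
        have hnear : ∀ u ∈ V, ∃ s : ℕ, (s : ℤ) ≤ 2 * E - 1 ∧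
            p + (x + (u : ZMod ω) - a) + (s : ZMod ω) ∈ B := by
          intro u hu
          have h0 := (mem_filter.1 hu).2
          have h1 : 1 ≤ e (x + (u : ZMod ω) - a) := by
            have := he0 (x + (u : ZMod ω) - a)
            omega
          obtain ⟨s, hs, hs'⟩ := next hB (p + (x + (u : ZMod ω) - a))
          refine ⟨s, ?_, hs⟩
          have h2 := run hF _ s hs'
          have h3 := hup (p + (x + (u : ZMod ω) - a) + (s : ZMod ω))
          have h4 := hlo (q + (x + (u : ZMod ω) - a))
          have h5 := he (x + (u : ZMod ω) - a)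
          nlinarith
        obtain ⟨s₀, hs₀, hb₀⟩ := hnear (V.min' hVn) (V.min'_mem hVn)
        have hsub : V ⊆ Icc (V.min' hVn) (V.min' hVn + s₀) := by
          intro u hu
          rw [mem_Icc]
          refine ⟨V.min'_le u hu, ?_⟩
          by_contra hgt
          obtain ⟨s, hs, hbs⟩ := hnear u hu
          have h1 := mem_Icc.1 (mem_filter.1 hu).1
          have h2 := mem_Icc.1 (mem_filter.1 (V.min'_mem hVn)).1
          have hsn : (s : ℤ) ≤ 2 * k - 1 := by linarith
          have hsn' : s + 1 ≤ 2 * k := by omega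
          have hs₀n : (s₀ : ℤ) ≤ 2 * k - 1 := by linarith
          refine hsp _ hb₀ (u - (V.min' hVn + s₀) + s) (by omega) (by omega) ?_
          have h3 : p + (x + ((V.min' hVn : ℕ) : ZMod ω) - a) + (s₀ : ZMod ω) +
              ((u - (V.min' hVn + s₀) + s : ℕ) : ZMod ω) =
              p + (x + (u : ZMod ω) - a) + (s : ZMod ω) := by
            rw [Nat.cast_add, Nat.cast_sub (by omega)]
            push_cast; ring
          rw [h3]; exact hbs
        have h6 := card_le_card hsub
        rw [Nat.card_Icc] at h6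
        have h7 : (V.card : ℤ) ≤ s₀ + 1 := by
          have : V.card ≤ s₀ + 1 := by omega
          exact_mod_cast this
        linarith
      · rw [not_nonempty_iff_eq_empty] at hVn
        rw [hVn, card_empty] at hVs
        push_cast at hVs
        linarith
    have htot : (2 * (k : ℤ) + 1) * E ≤ k * (2 * E) := by
      have h1 : ∑ u ∈ Icc k (3 * k), ∑ a ∈ KK A x, e (x + (u : ZMod ω) - a) =
          (2 * (k : ℤ) + 1) * E := by
        rw [sum_congr rfl fun u hu => hsum u (mem_Icc.1 hu).1 (by
          have := (mem_Icc.1 hu).2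
          omega), sum_const, Nat.card_Icc, nsmul_eq_mul]
        congr 1
        have : 3 * k + 1 - k = 2 * k + 1 := by omega
        rw [this]; push_cast; ring
      rw [← h1, sum_comm]
      calc ∑ a ∈ KK A x, ∑ u ∈ Icc k (3 * k), e (x + (u : ZMod ω) - a) ≤
          ∑ a ∈ KK A x, 2 * E := sum_le_sum hrow
        _ = k * (2 * E) := by rw [sum_const, nsmul_eq_mul]
    nlinarith
  -- conclusion
  have hconst : ∀ b ∈ B, F b = F p := by
    intro b hb
    have h1 := hpm b hb
    have h2 := hqm b hb
    linarith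
  have hstep : ∀ b ∈ B, b + (A.card : ZMod ω) ∈ B := by
    intro b hb
    obtain ⟨s, hs1, hs2, hs3⟩ := next' hB b
    have h1 := run_after hF hb s hs1 hs3
    rw [hconst b hb, hconst _ hs2] at h1
    have h2 : s = A.card := by
      have : (s : ℤ) = A.card := by linarith
      exact_mod_cast this
    rwa [h2] at hs2
  refine final h (b := p) fun j => ?_
  induction j with
  | zero => simpa using hp
  | succ j ih =>
    have h1 := hstep _ ih
    have h2 : p + ((j + 1 : ℕ) : ZMod ω) * (A.card : ZMod ω) =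
        p + (j : ZMod ω) * (A.card : ZMod ω) + (A.card : ZMod ω) := by push_cast; ring
    rw [h2]; exact h1

end

end Pool.Agent.H241.DF
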