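import Pool.Agent.H241.DF.Main

/-!
# Direct factors of cyclic groups which contain more than two thirds of an interval
-/

set_option autoImplicit false
set_option linter.unusedSectionVars false

namespace Pool.Agent.H241.DF

open Finset

variable {ω : ℕ} [NeZero ω] {A B : Finset (ZMod ω)} {F : ZMod ω → ℤ}

theorem le_run (hF : ∀ z, F (z + 1) = F z + 1 - A.card * ind B z) (z : ZMod ω) (s : ℕ) :
    F (z + (s : ZMod ω)) ≤ F z + s := by
  have hi : ∀ y, 0 ≤ (A.card : ℤ) * ind B y := by
    intro y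
    apply mul_nonneg (by positivity)
    unfold ind; split_ifs <;> norm_num
  induction s with
  | zero => simp
  | succ s ih =>
    have h2 : z + ((s + 1 : ℕ) : ZMod ω) = z + (s : ZMod ω) + 1 := by push_cast; ring
    rw [h2, hF]
    have := hi (z + (s : ZMod ω))
    push_cast
    linarith

theorem mod_run (hF : ∀ z, F (z + 1) = F z + 1 - A.card * ind B z) (z : ZMod ω) (s : ℕ) :
    ∃ c : ℤ, F (z + (s : ZMod ω)) = F z + s - A.card * c := by
  induction s with
  | zero => exact ⟨0, by simp⟩
  | succ s ih =>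
    obtain ⟨c, hc⟩ := ih
    refine ⟨c + ind B (z + (s : ZMod ω)), ?_⟩
    have h2 : z + ((s + 1 : ℕ) : ZMod ω) = z + (s : ZMod ω) + 1 := by push_cast; ring
    rw [h2, hF, hc]
    push_cast; ring

theorem le_after (hF : ∀ z, F (z + 1) = F z + 1 - A.card * ind B z) {b : ZMod ω} (hb : b ∈ B)
    (v : ℕ) (hv : 1 ≤ v) : F (b + (v : ZMod ω)) ≤ F b + v - A.card := by
  obtain ⟨w, rfl⟩ : ∃ w, v = w + 1 := ⟨v - 1, by omega⟩
  have h1 := le_run hF (b + 1) w
  rw [hF, ind_mem hb] at h1
  have h2 : b + ((w + 1 : ℕ) : ZMod ω) = b + 1 + (w : ZMod ω) := by push_cast; ring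
  rw [h2]; push_cast; linarith

theorem ge_before (hF : ∀ z, F (z + 1) = F z + 1 - A.card * ind B z) (b : ZMod ω) (w : ℕ) :
    F b - w ≤ F (b - (w : ZMod ω)) := by
  have h1 := le_run hF (b - (w : ZMod ω)) w
  rw [sub_add_cancel] at h1
  linarith

/-- the comparison function of two points -/
theorem comparison (h : IsFactorization A B)
    (hF : ∀ z, F (z + 1) = F z + 1 - A.card * ind B z) {p q : ZMod ω} (hp : p ∈ B)
    (hpm : ∀ b ∈ B, F p ≤ F b) (hq : q ∈ B) (hqm : ∀ b ∈ B, F b ≤ F q) {P Q : ZMod ω}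
    (hPQ : ∃ e₀ : ℤ, F P - F Q = -(F q - F p) + A.card * e₀) :
    ∃ e : ZMod ω → ℤ, (∀ y, F (P + y) - F (Q + y) = -(F q - F p) + A.card * e y) ∧
      (∀ y, 0 ≤ e y) ∧ (∀ y, A.card * e y ≤ 2 * (F q - F p) + A.card - 1) ∧
      ∀ z, ∑ a ∈ A, e (z - a) = F q - F p := by
  have hn0 : 0 < A.card := by
    obtain ⟨p, hp, -⟩ := h 0
    exact card_pos.2 ⟨p.1, hp.1⟩
  have hnpos : (0 : ℤ) < A.card := by exact_mod_cast hn0
  have hup := F_le hF hq hqm
  have hlo := F_ge hF hp hpm
  have hH : ∀ y : ZMod ω, ∃ e : ℤ, F (P + y) - F (Q + y) = -(F q - F p) + A.card * e := by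
    have hH' : ∀ s : ℕ, ∃ e : ℤ, F (P + (s : ZMod ω)) - F (Q + (s : ZMod ω)) =
        -(F q - F p) + A.card * e := by
      intro s
      induction s with
      | zero =>
        obtain ⟨e₀, he₀⟩ := hPQ
        exact ⟨e₀, by rw [Nat.cast_zero, add_zero, add_zero, he₀]⟩
      | succ s ih =>
        obtain ⟨e, he⟩ := ih
        refine ⟨e + ind B (Q + (s : ZMod ω)) - ind B (P + (s : ZMod ω)), ?_⟩
        have e1 : P + ((s + 1 : ℕ) : ZMod ω) = P + (s : ZMod ω) + 1 := by push_cast; ring
        have e2 : Q + ((s + 1 : ℕ) : ZMod ω) = Q + (s : ZMod ω) + 1 := by push_cast; ring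
        rw [e1, e2, hF, hF]
        linear_combination he
    intro y
    have := hH' y.val
    rwa [ZMod.natCast_zmod_val] at this
  choose e he using hH
  refine ⟨e, he, fun y => ?_, fun y => ?_, fun z => ?_⟩
  · by_contra hneg
    have h1 : e y ≤ -1 := by omega
    have h2 := he y
    have h3 := hlo (P + y)
    have h4 := hup (Q + y)
    nlinarith
  · have h2 := he y
    have h3 := hlo (Q + y)
    have h4 := hup (P + y)
    linarith
  · have h1 := sum_const' h hF (P + z) (Q + z)
    have h2 : (A.card : ℤ) * ∑ a ∈ A, e (z - a) = A.card * (F q - F p) := by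
      have h3 : ∑ a ∈ A, (F (P + z - a) - F (Q + z - a)) =
          ∑ a ∈ A, (-(F q - F p) + A.card * e (z - a)) := by
        refine sum_congr rfl fun a _ => ?_
        rw [← he]
        congr 2 <;> ring
      rw [sum_sub_distrib, h1, sub_self, sum_add_distrib, sum_const, nsmul_eq_mul,
        ← mul_sum] at h3
      linarith
    exact mul_left_cancel₀ hnpos.ne' h2

/-- a subset of an interval with at most half of each window of length `2 E` -/
theorem count (T : Finset ℕ) (E : ℕ) (hE : 1 ≤ E)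
    (hT : ∀ i, (T.filter fun t => i ≤ t ∧ t < i + 2 * E).card ≤ E) (L : ℕ) :
    2 * E ≤ L → ∀ i, 3 * (T.filter fun t => i ≤ t ∧ t < i + L).card ≤ 2 * L := by
  induction L using Nat.strong_induction_on with
  | _ L ih =>
    intro hL i
    have h1 : (T.filter fun t => i ≤ t ∧ t < i + L) ⊆
        (T.filter fun t => i ≤ t ∧ t < i + 2 * E) ∪
        (T.filter fun t => i + 2 * E ≤ t ∧ t < i + 2 * E + (L - 2 * E)) := by
      intro t ht
      rw [mem_union, mem_filter, mem_filter]
      rw [mem_filter] at ht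
      by_cases h2 : t < i + 2 * E
      · exact Or.inl ⟨ht.1, ht.2.1, h2⟩
      · exact Or.inr ⟨ht.1, by omega, by omega⟩
    have h2 := (card_le_card h1).trans (card_union_le _ _)
    have h3 := hT i
    by_cases h4 : L < 4 * E
    · have h5 : (T.filter fun t => i + 2 * E ≤ t ∧ t < i + 2 * E + (L - 2 * E)).card ≤
          L - 2 * E := by
        calc _ ≤ (Ico (i + 2 * E) (i + 2 * E + (L - 2 * E))).card := by
              apply card_le_card
              intro t ht
              rw [mem_Ico]
              exact (mem_filter.1 ht).2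
          _ = L - 2 * E := by rw [Nat.card_Ico]; omega
      have h6 : (T.filter fun t => i + 2 * E ≤ t ∧ t < i + 2 * E + (L - 2 * E)).card ≤ E := by
        refine le_trans (card_le_card ?_) (hT (i + 2 * E))
        intro t ht
        rw [mem_filter] at ht ⊢
        exact ⟨ht.1, ht.2.1, by omega⟩
      omega
    · have h5 := ih (L - 2 * E) (by omega) (by omega) (i + 2 * E)
      omega

/-- more than two thirds of an interval of length `n` -/
theorem main2 (h : IsFactorization A B) (x : ZMod ω) (hx : 2 * A.card < 3 * (TT A x).card) :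
    A.card ∣ ω ∧ CompleteResidues A.card A ∧ IsCoset A.card B := by
  classical
  obtain ⟨F, hF⟩ := exists_F h
  have hB : B.Nonempty := by
    obtain ⟨p, hp, -⟩ := h 0
    exact ⟨p.2, hp.2.1⟩
  have hn0 : 0 < A.card := by
    obtain ⟨p, hp, -⟩ := h 0
    exact card_pos.2 ⟨p.1, hp.1⟩
  set k : ℕ := (KK A x).card with hk
  have hkT : k + (TT A x).card = A.card := card_KK h x
  obtain ⟨p, hp, hpm⟩ := exists_min_image B F hB
  obtain ⟨q, hq, hqm⟩ := exists_max_image B F hB
  have hnpos : (0 : ℤ) < A.card := by exact_mod_cast hn0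
  obtain ⟨E, hE⟩ : ∃ E : ℕ, (E : ℤ) = F q - F p :=
    ⟨(F q - F p).toNat, Int.toNat_of_nonneg (sub_nonneg.2 (hpm q hq))⟩
  have hkz : 3 * (k : ℤ) + 1 ≤ A.card := by
    have : 3 * k + 1 ≤ A.card := by omega
    exact_mod_cast this
  have hk0 : (0 : ℤ) ≤ k := by positivity
  have hE0 : (0 : ℤ) ≤ E := by positivity
  -- the a priori bound
  have hE2k : (E : ℤ) ≤ 2 * k := by
    obtain ⟨e, he, he0, heup, hes⟩ := comparison h hF hp hpm hq hqm (P := p + (A.card : ZMod ω))
      (Q := q) (by
        obtain ⟨c, hc⟩ := mod_run hF p A.card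
        exact ⟨1 - c, by rw [hc]; ring⟩)
    rw [← hE] at heup hes
    have hz : ∀ t ∈ TT A x, e (x - (x + (t : ZMod ω))) = 0 := by
      intro t ht
      have htn := mem_range.1 (TT_sub A x ht)
      have h1 := he (x - (x + (t : ZMod ω)))
      have h2 : p + (A.card : ZMod ω) + (x - (x + (t : ZMod ω))) =
          p + ((A.card - t : ℕ) : ZMod ω) := by
        rw [Nat.cast_sub htn.le]; ring
      have h3 : q + (x - (x + (t : ZMod ω))) = q - (t : ZMod ω) := by ring
      rw [h2, h3] at h1
      have h4 := le_after hF hp (A.card - t) (by omega)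
      have h5 := ge_before hF q t
      have hc4 : ((A.card - t : ℕ) : ℤ) = (A.card : ℤ) - t := Nat.cast_sub htn.le
      rw [hc4] at h4
      have h6 := he0 (x - (x + (t : ZMod ω)))
      have h7 : (A.card : ℤ) * e (x - (x + (t : ZMod ω))) ≤ 0 := by linarith
      have h8 : e (x - (x + (t : ZMod ω))) ≤ 0 := by
        by_contra hpos
        have : 0 < (A.card : ℤ) * e (x - (x + (t : ZMod ω))) := mul_pos hnpos (by omega)
        linarith
      omega
    have hsum : ∑ a ∈ KK A x, e (x - a) = E := by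
      have h1 := hes x
      rw [sum_split h x, sum_eq_zero hz, zero_add] at h1
      exact h1
    have hEn : (E : ℤ) ≤ A.card - 1 := by
      have h2 : (A.card : ℤ) * E ≤ k * (2 * E + A.card - 1) := by
        calc (A.card : ℤ) * E = A.card * ∑ a ∈ KK A x, e (x - a) := by rw [hsum]
          _ = ∑ a ∈ KK A x, (A.card : ℤ) * e (x - a) := mul_sum _ _ _
          _ ≤ ∑ _a ∈ KK A x, (2 * (E : ℤ) + A.card - 1) := sum_le_sum fun a _ => heup _
          _ = k * (2 * E + A.card - 1) := by rw [sum_const, nsmul_eq_mul]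
      have h3 : (A.card : ℤ) * (3 * E) ≤ A.card * (2 * E + A.card - 1) := by nlinarith
      have h4 := le_of_mul_le_mul_left h3 hnpos
      linarith
    have he2 : ∀ y, e y ≤ 2 := by
      intro y
      by_contra hgt
      have h1 : 3 ≤ e y := by omega
      have h2 := heup y
      nlinarith
    calc (E : ℤ) = ∑ a ∈ KK A x, e (x - a) := hsum.symm
      _ ≤ ∑ _a ∈ KK A x, (2 : ℤ) := sum_le_sum fun a _ => he2 _
      _ = 2 * k := by rw [sum_const, nsmul_eq_mul]; ring
  -- windows of length `2 E`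
  have hwin : ∀ i : ℕ, ((TT A x).filter fun t => i ≤ t ∧ t < i + 2 * E).card ≤ E := by
    intro i
    obtain ⟨c₁, hc₁⟩ := mod_run hF (q - (E : ZMod ω)) E
    obtain ⟨c₂, hc₂⟩ := mod_run hF p E
    rw [sub_add_cancel] at hc₁
    obtain ⟨e, he, he0, heup, hes⟩ := comparison h hF hp hpm hq hqm (P := q - (E : ZMod ω))
      (Q := p + (E : ZMod ω)) ⟨c₁ + c₂, by rw [hc₂]; linear_combination -hc₁ - 2 * hE⟩
    rw [← hE] at hes
    have h1 := hes (x + (i : ZMod ω) + (E : ZMod ω))
    have hone : ∀ t ∈ (TT A x).filter fun t => i ≤ t ∧ t < i + 2 * E,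
        1 ≤ e (x + (i : ZMod ω) + (E : ZMod ω) - (x + (t : ZMod ω))) := by
      intro t ht
      obtain ⟨-, hit, hti⟩ := mem_filter.1 ht
      have h2 := he (x + (i : ZMod ω) + (E : ZMod ω) - (x + (t : ZMod ω)))
      have h3 : q - (E : ZMod ω) + (x + (i : ZMod ω) + (E : ZMod ω) - (x + (t : ZMod ω))) =
          q - ((t - i : ℕ) : ZMod ω) := by
        rw [Nat.cast_sub hit]; ring
      have h4 : p + (E : ZMod ω) + (x + (i : ZMod ω) + (E : ZMod ω) - (x + (t : ZMod ω))) =
          p + ((2 * E - (t - i) : ℕ) : ZMod ω) := by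
        rw [Nat.cast_sub (by omega), Nat.cast_sub hit]; push_cast; ring
      rw [h3, h4] at h2
      have h5 := le_after hF hp (2 * E - (t - i)) (by omega)
      have h6 := ge_before hF q (t - i)
      have hc5 : ((2 * E - (t - i) : ℕ) : ℤ) = 2 * (E : ℤ) - (t - i) := by omega
      have hc6 : ((t - i : ℕ) : ℤ) = (t : ℤ) - i := Nat.cast_sub hit
      rw [hc5] at h5
      rw [hc6] at h6
      have h7 : (A.card : ℤ) ≤
          A.card * e (x + (i : ZMod ω) + (E : ZMod ω) - (x + (t : ZMod ω))) := by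
        linarith
      by_contra hlt
      have h8 : e (x + (i : ZMod ω) + (E : ZMod ω) - (x + (t : ZMod ω))) ≤ 0 := by omega
      nlinarith
    have h9 : (((TT A x).filter fun t => i ≤ t ∧ t < i + 2 * E).card : ℤ) ≤ E := by
      calc (((TT A x).filter fun t => i ≤ t ∧ t < i + 2 * E).card : ℤ) =
          ∑ _t ∈ (TT A x).filter fun t => i ≤ t ∧ t < i + 2 * E, (1 : ℤ) := by
            rw [sum_const, nsmul_eq_mul, mul_one]
        _ ≤ ∑ t ∈ (TT A x).filter fun t => i ≤ t ∧ t < i + 2 * E,
            e (x + (i : ZMod ω) + (E : ZMod ω) - (x + (t : ZMod ω))) := sum_le_sum hone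
        _ ≤ ∑ t ∈ TT A x, e (x + (i : ZMod ω) + (E : ZMod ω) - (x + (t : ZMod ω))) :=
            sum_le_sum_of_subset_of_nonneg (filter_subset _ _) fun t _ _ => he0 _
        _ ≤ ∑ a ∈ A, e (x + (i : ZMod ω) + (E : ZMod ω) - a) := by
            rw [sum_split h x (fun a => e (x + (i : ZMod ω) + (E : ZMod ω) - a))]
            have := sum_nonneg fun a (_ : a ∈ KK A x) =>
              he0 (x + (i : ZMod ω) + (E : ZMod ω) - a)
            linarith
        _ = E := h1
    exact_mod_cast h9
  -- `E = 0`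
  have hall : ∀ L : ℕ, A.card ≤ L →
      ((TT A x).filter fun t => 0 ≤ t ∧ t < 0 + L) = TT A x := by
    intro L hL
    apply filter_true_of_mem
    intro t ht
    have := mem_range.1 (TT_sub A x ht)
    omega
  have hE00 : E = 0 := by
    by_contra hne
    have hE2k' : E ≤ 2 * k := by exact_mod_cast hE2k
    by_cases h2 : 2 * E ≤ A.card
    · have h3 := count (TT A x) E (by omega) hwin A.card h2 0
      rw [hall A.card le_rfl] at h3
      omega
    · have h3 := hwin 0
      rw [hall (2 * E) (by omega)] at h3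
      omega
  -- conclusion
  have hconst : ∀ b ∈ B, F b = F p := by
    intro b hb
    have h1 := hpm b hb
    have h2 := hqm b hb
    rw [hE00] at hE
    push_cast at hE
    linarith
  have hstep : ∀ b ∈ B, b + (A.card : ZMod ω) ∈ B := by
    intro b hb
    obtain ⟨s, hs1, hs2, hs3⟩ := next' hB b
    have h1 := run_after hF hb s hs1 hs3
    rw [hconst b hb, hconst _ hs2] at h1
    have h2 : s = A.card := by
      have : (s : ℤ) = A.card := by linarith
      exact_mod_cast this
    rwa [h2] at hs2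
  refine final h (b := p) fun j => ?_
  induction j with
  | zero => simpa using hp
  | succ j ih =>
    have h1 := hstep _ ih
    have h2 : p + ((j + 1 : ℕ) : ZMod ω) * (A.card : ZMod ω) =
        p + (j : ZMod ω) * (A.card : ZMod ω) + (A.card : ZMod ω) := by push_cast; ring
    rw [h2]; exact h1

end Pool.Agent.H241.DF
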